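import Pool.Agent.Q81.CT.Main

/-!
# MP_665821_co: non-transitive tournaments and colour-avoiding directed paths
-/

set_option autoImplicit false

namespace Pool.Agent.Results.MP_665821_co.NonTransitive

open Pool.Agent.Q81.CT

/-- A tournament on the vertex set `Fin N`: between any two distinct vertices there is exactly one
arc. -/
structure Tournament (N : ℕ) where
  arc : Fin N → Fin N → Prop
  loopless : ∀ a, ¬ arc a a
  exactlyOne : ∀ a b, a ≠ b → (arc a b ↔ ¬ arc b a)

/-- A `q`-edge-colouring of a tournament on `Fin N`: `c a b` is the colour of the edge whose arc is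
`a → b` (the values on pairs which are not arcs play no role). -/
abbrev Colouring (q N : ℕ) : Type := Fin N → Fin N → Fin q

/-- `l` is a colour-avoiding directed path: the vertices are distinct, consecutive vertices are
joined by an arc, and some colour `i` does not occur on the edges of the path. -/
def IsAvoidingPath {q N : ℕ} (T : Tournament N) (c : Colouring q N) (l : List (Fin N)) : Prop :=
  l.Nodup ∧ l.IsChain T.arc ∧ ∃ i : Fin q, l.IsChain (fun a b => c a b ≠ i)

/-- The largest number of vertices of a colour-avoiding directed path. -/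
noncomputable def longest {q N : ℕ} (T : Tournament N) (c : Colouring q N) : ℕ :=
  sSup {m : ℕ | ∃ l : List (Fin N), IsAvoidingPath T c l ∧ l.length = m}

/-- The transitive tournament: `a → b` exactly if `a < b`. -/
def transitive (N : ℕ) : Tournament N where
  arc a b := a < b
  loopless a := lt_irrefl a
  exactlyOne a b h := by
    constructor
    · intro h1 h2
      exact lt_asymm h1 h2
    · intro h1
      exact lt_of_le_of_ne (not_lt.1 h1) h

/-- `T` is isomorphic to the transitive tournament. -/
def Tournament.IsTransitive {N : ℕ} (T : Tournament N) : Prop :=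
  ∃ e : Fin N ≃ Fin N, ∀ a b, T.arc a b ↔ (transitive N).arc (e a) (e b)

/-- `f_{q,q-1}(N)`: the minimum of `longest` over all `q`-edge-colourings of the transitive
tournament. -/
noncomputable def f (q N : ℕ) : ℕ := sInf {m : ℕ | ∃ c : Colouring q N, m = longest (transitive N) c}

/-- `g_{q,q-1}(N)`: the minimum of `longest` over all `q`-edge-coloured tournaments. -/
noncomputable def g (q N : ℕ) : ℕ :=
  sInf {m : ℕ | ∃ (T : Tournament N) (c : Colouring q N), m = longest T c}

lemma bdd {q N : ℕ} (T : Tournament N) (c : Colouring q N) :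
    BddAbove {m : ℕ | ∃ l : List (Fin N), IsAvoidingPath T c l ∧ l.length = m} := by
  refine ⟨N, ?_⟩
  rintro m ⟨l, hl, rfl⟩
  simpa using hl.1.length_le_card

/-! ### The transitive tournament -/

section lower

variable (c : Colouring 4 10)

/-- there is an increasing path with `k` vertices ending at `b` which avoids the colour `i` -/
def P (i : Fin 4) (b : Fin 10) (k : ℕ) : Prop :=
  ∃ l : List (Fin 10), (b :: l).IsChain (fun u v => v < u ∧ c v u ≠ i) ∧ l.length + 1 = k

lemma P_one (i : Fin 4) (b : Fin 10) : P c i b 1 := ⟨[], by simp, rfl⟩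

lemma P_succ {i : Fin 4} {a b : Fin 10} {k : ℕ} (h : P c i a k) (hab : a < b) (hc : c a b ≠ i) :
    P c i b (k + 1) := by
  obtain ⟨l, hl, hk⟩ := h
  refine ⟨a :: l, ?_, by rw [List.length_cons, hk]⟩
  rw [List.isChain_cons_cons]
  exact ⟨⟨hab, hc⟩, hl⟩

lemma P_le {i : Fin 4} {b : Fin 10} {k : ℕ} (h : P c i b k) : k ≤ longest (transitive 10) c := by
  obtain ⟨l, hl, hk⟩ := h
  refine le_csSup (bdd _ c) ⟨(b :: l).reverse, ⟨?_, ?_, i, ?_⟩, by simp [hk]⟩
  · rw [List.nodup_reverse]
    have h1 : (b :: l).IsChain (fun u v => v < u) := hl.imp (fun _ _ h => h.1)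
    have h2 : (b :: l).Pairwise (fun u v : Fin 10 => v < u) := by
      rw [List.isChain_iff_pairwise] at h1
      exact h1
    exact h2.imp (fun h => ne_of_gt h)
  · rw [List.isChain_reverse]
    exact hl.imp (fun _ _ h => h.1)
  · rw [List.isChain_reverse]
    exact hl.imp (fun _ _ h => h.2)

open Classical in
/-- the largest `k ≤ 6` with `P` -/
noncomputable def ht (i : Fin 4) (b : Fin 10) : ℕ := Nat.findGreatest (fun k => P c i b k) 6

lemma ht_le (i : Fin 4) (b : Fin 10) : ht c i b ≤ 6 := by
  classical
  exact Nat.findGreatest_le 6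

lemma one_le_ht (i : Fin 4) (b : Fin 10) : 1 ≤ ht c i b := by
  classical
  exact Nat.le_findGreatest (by norm_num) (P_one c i b)

lemma ht_spec (i : Fin 4) (b : Fin 10) : P c i b (ht c i b) := by
  classical
  exact Nat.findGreatest_spec (P := fun k => P c i b k) (m := 1) (by norm_num) (P_one c i b)

lemma ht_lt (hc : longest (transitive 10) c ≤ 6) {i : Fin 4} {a b : Fin 10} (hab : a < b)
    (hi : c a b ≠ i) : ht c i a < ht c i b := by
  have h1 := P_succ c (ht_spec c i a) hab hi
  have h2 := (P_le c h1).trans hc
  classical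
  exact Nat.le_findGreatest h2 h1

lemma seven_le_longest : 7 ≤ longest (transitive 10) c := by
  by_contra hcon
  have hc : longest (transitive 10) c ≤ 6 := by omega
  let x : ℕ → Vec := fun a =>
    if h : a < 10 then (ht c 0 ⟨a, h⟩, ht c 1 ⟨a, h⟩, ht c 2 ⟨a, h⟩, ht c 3 ⟨a, h⟩)
    else (0, 0, 0, 0)
  have hx : ∀ (a : ℕ) (h : a < 10),
      x a = (ht c 0 ⟨a, h⟩, ht c 1 ⟨a, h⟩, ht c 2 ⟨a, h⟩, ht c 3 ⟨a, h⟩) := by
    intro a h
    simp only [x, dif_pos h]
  refine no_ten x ?_ ?_ ?_
  · intro a b hab hb
    have ha : a < 10 := by omega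
    rw [hx a ha, hx b hb]
    have hlt : (⟨a, ha⟩ : Fin 10) < ⟨b, hb⟩ := by
      rw [Fin.lt_def]
      exact hab
    have key : ∀ i : Fin 4, c ⟨a, ha⟩ ⟨b, hb⟩ ≠ i → ht c i ⟨a, ha⟩ < ht c i ⟨b, hb⟩ :=
      fun i hi => ht_lt c hc hlt hi
    have hj : ∀ j : Fin 4, j = 0 ∨ j = 1 ∨ j = 2 ∨ j = 3 := by decide
    simp only [Lt3]
    rcases hj (c ⟨a, ha⟩ ⟨b, hb⟩) with h | h | h | h <;> rw [h] at key
    · exact Or.inl ⟨key 1 (by decide), key 2 (by decide), key 3 (by decide)⟩
    · exact Or.inr (Or.inl ⟨key 0 (by decide), key 2 (by decide), key 3 (by decide)⟩)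
    · exact Or.inr (Or.inr (Or.inl ⟨key 0 (by decide), key 1 (by decide), key 3 (by decide)⟩))
    · exact Or.inr (Or.inr (Or.inr ⟨key 0 (by decide), key 1 (by decide), key 2 (by decide)⟩))
  · intro a ha
    rw [hx a ha]
    exact ⟨one_le_ht c _ _, one_le_ht c _ _, one_le_ht c _ _, one_le_ht c _ _⟩
  · intro a ha
    rw [hx a ha]
    exact ⟨ht_le c _ _, ht_le c _ _, ht_le c _ _, ht_le c _ _⟩

end lower

/-! ### The example -/

/-- the arcs of the example -/
def arcB : Fin 10 → Fin 10 → Bool :=
  ![![false, true, true, true, true, true, true, true, true, true],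
    ![false, false, true, false, true, true, true, true, true, true],
    ![false, false, false, true, true, true, true, true, true, true],
    ![false, true, false, false, true, true, true, true, true, true],
    ![false, false, false, false, false, true, true, true, true, true],
    ![false, false, false, false, false, false, true, true, true, true],
    ![false, false, false, false, false, false, false, true, false, true],
    ![false, false, false, false, false, false, false, false, true, true],
    ![false, false, false, false, false, false, true, false, false, true],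
    ![false, false, false, false, false, false, false, false, false, false]]

/-- the colours of the example -/
def colB : Fin 10 → Fin 10 → Fin 4 :=
  ![![0, 0, 1, 2, 0, 3, 1, 1, 0, 0],
    ![0, 0, 1, 0, 1, 3, 3, 3, 3, 1],
    ![1, 1, 0, 2, 2, 3, 3, 3, 3, 0],
    ![2, 0, 2, 0, 0, 3, 3, 3, 3, 0],
    ![0, 1, 2, 0, 0, 3, 3, 3, 3, 1],
    ![3, 3, 3, 3, 3, 0, 1, 2, 0, 3],
    ![1, 3, 3, 3, 3, 1, 0, 2, 1, 2],
    ![1, 3, 3, 3, 3, 2, 2, 0, 0, 0],
    ![0, 3, 3, 3, 3, 0, 1, 0, 0, 1],
    ![0, 1, 0, 0, 1, 3, 2, 0, 1, 0]]

/-- the example -/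
def T₀ : Tournament 10 where
  arc a b := arcB a b = true
  loopless := by decide +kernel
  exactlyOne := by decide +kernel

/-- `true` if the path `p` (last vertex first) cannot be prolonged by `k` vertices -/
def srch (adj : Fin 10 → Fin 10 → Bool) : ℕ → List (Fin 10) → Bool
  | 0, _ => false
  | _ + 1, [] => false
  | k + 1, v :: p =>
    (List.finRange 10).all fun w =>
      !(adj v w) || ((v :: p).elem w || srch adj k (w :: v :: p))

lemma srch_sound (adj : Fin 10 → Fin 10 → Bool) (k : ℕ) :
    ∀ (v : Fin 10) (p l : List (Fin 10)), srch adj k (v :: p) = true → l.length = k →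
      (v :: l).IsChain (fun a b => adj a b = true) → l.Nodup → (∀ w ∈ l, w ∉ v :: p) → False := by
  induction k with
  | zero =>
    intro v p l h
    simp [srch] at h
  | succ k ih =>
    intro v p l h hl hch hnd hav
    cases l with
    | nil => simp at hl
    | cons w l =>
      have h1 : ∀ w ∈ List.finRange 10,
          (!(adj v w) || ((v :: p).elem w || srch adj k (w :: v :: p))) = true := by
        have := h
        rw [srch, List.all_eq_true] at this
        exact this
      have h2 := h1 w (List.mem_finRange w)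
      rw [List.isChain_cons_cons] at hch
      have hw : w ∉ v :: p := hav w List.mem_cons_self
      have h3 : (v :: p).elem w = false := by
        rw [Bool.eq_false_iff]
        intro hcon
        exact hw (List.elem_iff.1 hcon)
      rw [hch.1, h3] at h2
      simp only [Bool.not_true, Bool.false_or] at h2
      rw [List.nodup_cons] at hnd
      refine ih w (v :: p) l h2 (by simpa using hl) hch.2 hnd.2 ?_
      intro u hu hmem
      rcases List.mem_cons.1 hmem with rfl | hmem
      · exact hnd.1 hu
      · exact hav u (List.mem_cons_of_mem _ hu) hmem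

/-- the arcs whose colour is not `i` -/
def adjc (i : Fin 4) (a b : Fin 10) : Bool := arcB a b && !(decide (colB a b = i))

lemma srch_ok : ∀ (i : Fin 4) (v : Fin 10), srch (adjc i) 6 [v] = true := by
  decide +kernel

lemma length_le_six (l : List (Fin 10)) (h : IsAvoidingPath T₀ colB l) : l.length ≤ 6 := by
  by_contra hcon
  obtain ⟨hnd, hch, i, hci⟩ := h
  have hlen : 7 ≤ l.length := by omega
  have ht : (l.take 7).length = 7 := by
    rw [List.length_take]
    omega
  have hch' : (l.take 7).IsChain (fun a b => adjc i a b = true) := by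
    have h1 : (l.take 7).IsChain T₀.arc := hch.take 7
    have h2 : (l.take 7).IsChain (fun a b => colB a b ≠ i) := hci.take 7
    rw [List.isChain_iff_getElem] at h1 h2 ⊢
    intro n hn
    have a1 := h1 n hn
    have a2 := h2 n hn
    simp only [adjc, Bool.and_eq_true, Bool.not_eq_true', decide_eq_false_iff_not]
    exact ⟨a1, a2⟩
  have hnd' : (l.take 7).Nodup := hnd.sublist (List.take_sublist 7 l)
  generalize l.take 7 = m at ht hch' hnd'
  cases m with
  | nil => simp at ht
  | cons v m =>
    rw [List.nodup_cons] at hnd'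
    refine srch_sound (adjc i) 6 v [] m (srch_ok i v) (by simpa using ht) hch' hnd'.2 ?_
    intro w hw hmem
    rw [List.mem_singleton] at hmem
    subst hmem
    exact hnd'.1 hw

lemma longest_le : longest T₀ colB ≤ 6 := by
  refine csSup_le ⟨0, [], ⟨List.nodup_nil, by simp, 0, by simp⟩, rfl⟩ ?_
  rintro m ⟨l, hl, rfl⟩
  exact length_le_six l hl

lemma not_transitive : ¬ T₀.IsTransitive := by
  rintro ⟨e, he⟩
  have h1 : e 1 < e 2 := (he 1 2).1 (by decide +kernel : arcB 1 2 = true)
  have h2 : e 2 < e 3 := (he 2 3).1 (by decide +kernel : arcB 2 3 = true)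
  have h3 : e 3 < e 1 := (he 3 1).1 (by decide +kernel : arcB 3 1 = true)
  exact absurd (h1.trans (h2.trans h3)) (lt_irrefl _)

lemma seven_le_f : 7 ≤ f 4 10 := by
  refine le_csInf ⟨_, fun _ _ => 0, rfl⟩ ?_
  rintro m ⟨c, rfl⟩
  exact seven_le_longest c

/-- **Main result.**  There are `q ≥ 4`, `N` and a non-transitive `q`-edge-coloured tournament on
`N` vertices whose longest colour-avoiding directed path has strictly fewer than `f_{q,q-1}(N)`
vertices.  In fact `q = 4` and `N = 10` will do, with a tournament whose colour-avoiding directed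
paths have at most `6` vertices, while `f_{4,3}(10) ≥ 7`; so `g_{4,3}(10) < f_{4,3}(10)`. -/
theorem result :
    (∃ (q N : ℕ) (T : Tournament N) (c : Colouring q N), 4 ≤ q ∧ ¬ T.IsTransitive ∧
      longest T c < f q N) ∧
    (∃ (T : Tournament 10) (c : Colouring 4 10), ¬ T.IsTransitive ∧ longest T c ≤ 6) ∧
    7 ≤ f 4 10 ∧ g 4 10 < f 4 10 := by
  have h1 := longest_le
  have h2 := seven_le_f
  refine ⟨⟨4, 10, T₀, colB, le_rfl, not_transitive, by omega⟩, ⟨T₀, colB, not_transitive, h1⟩, h2,
    ?_⟩
  have h3 : g 4 10 ≤ longest T₀ colB := Nat.sInf_le ⟨T₀, colB, rfl⟩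
  omega

end Pool.Agent.Results.MP_665821_co.NonTransitive
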